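import Pool.Agent.Q207.FE

namespace Pool.Agent.Results.MP_b27926_lc.Disproof

open Q207.FE

/-- `F` is minimal for a relation `r` on ultrafilters: `F ≠ 1` and every `G` with `r G F` is `1`
or equivalent to `F`. -/
def IsMin (r : Ultrafilter ℕ+ → Ultrafilter ℕ+ → Prop) (F : Ultrafilter ℕ+) : Prop :=
  F ≠ pure 1 ∧ ∀ G : Ultrafilter ℕ+, r G F → G = pure 1 ∨ (r G F ∧ r F G)

end Pool.Agent.Results.MP_b27926_lc.Disproof

open Q207.FE in
/-- There is a `∣_M`-minimal ultrafilter that is not `≤_fe`-minimal. -/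
theorem Pool.Agent.Results.MP_b27926_lc.Disproof.result :
    ∃ F : Ultrafilter ℕ+, Pool.Agent.Results.MP_b27926_lc.Disproof.IsMin MDiv F ∧
      ¬ Pool.Agent.Results.MP_b27926_lc.Disproof.IsMin FE F := by
  obtain ⟨F, G, h1, h2, h3, h4, h5, h6, h7, h8⟩ := example_exists
  refine ⟨G, ⟨h6, ?_⟩, ?_⟩
  · rintro H hH
    have hrefl : ∀ K : Ultrafilter ℕ+, MDiv K K := fun K =>
      ⟨pure 1, pure 1, by rw [mprod_one, one_mprod]⟩
    obtain ⟨H₁, H₂, hEq⟩ := hH
    rcases h8 _ _ hEq with h9 | h9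
    · left
      exact (mprod_eq_one h9).2
    · have hEq' := hEq
      rw [h9, mprod_one] at hEq'
      rcases h8 _ _ hEq' with h10 | h10
      · right
        rw [h10, one_mprod] at hEq'
        subst hEq'
        exact ⟨hrefl _, hrefl _⟩
      · left; exact h10
  · rintro ⟨-, h⟩
    rcases h F h3 with h9 | h9
    · exact h5 h9
    · exact h4 h9.2
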